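import Pool.Agent.H18.XX.TA

/-!
Row RMR (EQP = EXPH, MP_0f8dca_lc): the sum of the products, relative to the event.
-/

set_option autoImplicit false

namespace Pool.Agent.H78.XX

open Finset Pool.Agent.H6.NB Pool.Agent.H66.IQ Pool.Agent.H18.XX

theorem ev_nonneg {V : Type} (t : Tr V) (y : V → Bool) : 0 ≤ t.ev y := by
  induction t with
  | lf a =>
    show 0 ≤ bi (a.f y)
    unfold bi
    split_ifs <;> norm_num
  | av l r hl hr =>
    show 0 ≤ (l.ev y + r.ev y) / 2
    linarith
  | ch l r hl hr =>
    show 0 ≤ max (l.ev y) (r.ev y)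
    exact le_max_of_le_left hl

theorem ms_zero {V : Type} (β : ℝ) (t : Tr V) (y : V → Bool) (h : t.ev y = 0) (x : V) :
    t.ms β x y = 0 := by
  induction t with
  | lf a =>
    have h1 : bi (a.f y) = 0 := h
    have h2 : a.f y = false := by
      by_contra hc
      rw [Bool.not_eq_false] at hc
      rw [hc] at h1
      norm_num [bi] at h1
    unfold Tr.ms
    rw [if_neg]
    rw [h2]
    simp
  | av l r hl hr =>
    have h1 : (l.ev y + r.ev y) / 2 = 0 := h
    have h2 := ev_nonneg l y
    have h3 := ev_nonneg r y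
    show (l.ms β x y + r.ms β x y) / 2 = 0
    rw [hl (by linarith), hr (by linarith)]
    norm_num
  | ch l r hl hr =>
    have h1 : max (l.ev y) (r.ev y) = 0 := h
    have h2 := ev_nonneg l y
    have h3 := ev_nonneg r y
    have h4 := le_max_left (l.ev y) (r.ev y)
    have h5 := le_max_right (l.ev y) (r.ev y)
    show Pool.Agent.H66.IP.gw β (l.sv β y) (r.sv β y) * l.ms β x y +
      Pool.Agent.H66.IP.gw β (r.sv β y) (l.sv β y) * r.ms β x y = 0
    rw [hl (by linarith), hr (by linarith)]
    ring

theorem own_zero {V : Type} [DecidableEq V] (β : ℝ) (t : Tr V) (y : V → Bool) (h : t.ev y = 0)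
    (x z : V) : t.own β x z y = 0 := by
  unfold Tr.own
  rw [ms_zero β t y h x, ms_zero β t y h z]
  ring

theorem rr_zero {V : Type} [DecidableEq V] (β : ℝ) (t : Tr V) (y : V → Bool) (h : t.ev y = 0)
    (x z : V) : t.rr β x z y = 0 := by
  induction t with
  | lf a => exact own_zero β (Tr.lf a) y h x z
  | av l r hl hr =>
    have h0 := own_zero β (Tr.av l r) y h x z
    have h1 : (l.ev y + r.ev y) / 2 = 0 := h
    have h2 := ev_nonneg l y
    have h3 := ev_nonneg r y
    show (Tr.av l r).own β x z y + (l.rr β x z y + r.rr β x z y) / 2 = 0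
    rw [h0, hl (by linarith), hr (by linarith)]
    norm_num
  | ch l r hl hr =>
    have h0 := own_zero β (Tr.ch l r) y h x z
    have h1 : max (l.ev y) (r.ev y) = 0 := h
    have h2 := ev_nonneg l y
    have h3 := ev_nonneg r y
    have h4 := le_max_left (l.ev y) (r.ev y)
    have h5 := le_max_right (l.ev y) (r.ev y)
    show (Tr.ch l r).own β x z y + (Pool.Agent.H66.IP.gw β (l.sv β y) (r.sv β y) * l.rr β x z y +
      Pool.Agent.H66.IP.gw β (r.sv β y) (l.sv β y) * r.rr β x z y) = 0
    rw [h0, hl (by linarith), hr (by linarith)]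
    ring

/-- RMR: the sum of the products, relative to the event. -/
theorem pf_RMR (hRSM : T_RSM) : T_RMR := by
  intro V _ _ β t A hβ hA y
  obtain ⟨h1, h2⟩ := hRSM V β t y hβ
  refine ⟨fun x z => (h1 x z).1.trans (h1 x z).2, ?_⟩
  cases hy : A y with
  | false =>
    have h3 : ∑ x, ∑ z, t.rr β x z y = 0 :=
      Finset.sum_eq_zero fun x _ => Finset.sum_eq_zero fun z _ => rr_zero β t y (hA y hy) x z
    rw [h3]
    simp [bi]
  | true =>
    refine h2.trans (le_of_eq ?_)
    simp [bi]

end Pool.Agent.H78.XX
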